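import Pool.Agent.Helper20.RG.St1
import Pool.Agent.Helper20.RG.St3

set_option autoImplicit false

open MeasureTheory Set Filter Topology
open scoped ENNReal RealInnerProductSpace

namespace Pool.Agent.Helper71.RG

open Pool.Agent.Helper20.RG
open Pool.Agent.Helper68.LM (Pl BB Bd Av HL ft fm DQ)
open Pool.Agent.Helper61.Lacunary (ConditionG LpBounded)

theorem graph_scale_MAI {φ τ : ℝ → ℝ} (h : Graph φ τ) {ℓ : ℝ} (hℓ : 0 < ℓ) :
    Graph (fun t => φ (ℓ * t) / ℓ) (fun t => τ (ℓ * t)) := by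
  refine ⟨fun t => h.1 _, fun t t' htt => ?_⟩
  have h1 := h.2 (ℓ * t) (ℓ * t') (mul_le_mul_of_nonneg_left htt hℓ.le)
  have e1 : φ (ℓ * t') / ℓ - φ (ℓ * t) / ℓ = (φ (ℓ * t') - φ (ℓ * t)) / ℓ := by ring
  constructor
  · show τ (ℓ * t) * (t' - t) ≤ φ (ℓ * t') / ℓ - φ (ℓ * t) / ℓ
    rw [e1, le_div_iff₀ hℓ]
    calc τ (ℓ * t) * (t' - t) * ℓ = τ (ℓ * t) * (ℓ * t' - ℓ * t) := by ring
      _ ≤ _ := h1.1
  · show φ (ℓ * t') / ℓ - φ (ℓ * t) / ℓ ≤ τ (ℓ * t') * (t' - t)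
    rw [e1, div_le_iff₀ hℓ]
    calc φ (ℓ * t') - φ (ℓ * t) ≤ τ (ℓ * t') * (ℓ * t' - ℓ * t) := h1.2
      _ = _ := by ring

theorem gap_mono_MAI {A s σ : ℝ} {τ : ℝ → ℝ} (hA : 0 < A) (hs : 0 < s) (hσ : s ≤ σ)
    (h : Gap A s τ) : Gap A σ τ := by
  intro θ i hi
  refine le_trans (h θ i hi) (ENNReal.ofReal_le_ofReal ?_)
  apply mul_le_mul_of_nonneg_left _ hA.le
  apply Real.rpow_le_rpow_of_exponent_le
  · exact_mod_cast hi
  · have : 1 / σ ≤ 1 / s := one_div_le_one_div_of_le hs hσ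
    linarith

theorem graph_lip_MAI {φ τ : ℝ → ℝ} (h : Graph φ τ) (t t' : ℝ) : |φ t' - φ t| ≤ |t' - t| := by
  have aux : ∀ a b : ℝ, a ≤ b → |φ b - φ a| ≤ b - a := by
    intro a b hab
    obtain ⟨h1, h2⟩ := h.2 a b hab
    have h3 := abs_le.1 (h.1 a)
    have h4 := abs_le.1 (h.1 b)
    have h5 : 0 ≤ b - a := by linarith
    rw [abs_le]
    constructor
    · nlinarith
    · nlinarith
  rcases le_total t t' with hle | hle
  · rw [abs_of_nonneg (by linarith : 0 ≤ t' - t)]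
    exact aux t t' hle
  · rw [abs_sub_comm (φ t') (φ t), abs_sub_comm t' t, abs_of_nonneg (by linarith : 0 ≤ t - t')]
    exact aux t' t hle

theorem graph_cont_MAI {φ τ : ℝ → ℝ} (h : Graph φ τ) : Continuous φ := by
  have h1 : LipschitzWith 1 φ := by
    apply LipschitzWith.of_dist_le_mul
    intro x y
    rw [Real.dist_eq, Real.dist_eq, NNReal.coe_one, one_mul]
    exact graph_lip_MAI h y x
  exact h1.continuous

theorem arc_Bd_MAI (hPT : StPT) {φ τ : ℝ → ℝ} (h : Graph φ τ) (c : Pl) :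
    Bd (‖c‖ + |φ 0| + 2) 1 (arc c φ) := by
  obtain ⟨hpt, _, hnorm, _, hcont, _⟩ := hPT
  have hφ := graph_cont_MAI h
  have hm : Measurable (fun t : ℝ => c + pt t (φ t)) := by
    apply Continuous.measurable
    have h1 : Continuous fun t : ℝ => pt t (φ t) :=
      hcont.comp (continuous_id.prodMk hφ)
    exact continuous_const.add h1
  have hb : ∀ t ∈ Icc (0 : ℝ) 1, ‖c + pt t (φ t)‖ ≤ ‖c‖ + |φ 0| + 2 := by
    intro t ht
    have h1 := (hnorm (pt t (φ t))).2.2.1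
    rw [(hpt t (φ t)).1, (hpt t (φ t)).2] at h1
    have h2 : |t| ≤ 1 := by
      rw [abs_of_nonneg ht.1]; exact ht.2
    have h3 := graph_lip_MAI h 0 t
    rw [sub_zero] at h3
    have h4 : |φ t| ≤ |φ 0| + 1 := by
      have : |φ t| ≤ |φ t - φ 0| + |φ 0| := by
        have := abs_add_le (φ t - φ 0) (φ 0)
        simpa using this
      linarith
    have h5 := norm_add_le c (pt t (φ t))
    linarith
  constructor
  · unfold arc
    rw [Measure.map_apply hm (Metric.isClosed_closedBall.measurableSet.compl),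
      Measure.restrict_apply (hm (Metric.isClosed_closedBall.measurableSet.compl))]
    have : ((fun t : ℝ => c + pt t (φ t)) ⁻¹' (Metric.closedBall 0 (‖c‖ + |φ 0| + 2))ᶜ) ∩
        Icc (0 : ℝ) 1 = ∅ := by
      ext t
      simp only [mem_inter_iff, mem_preimage, mem_compl_iff, Metric.mem_closedBall, dist_zero_right,
        mem_empty_iff_false, iff_false, not_and]
      intro h1 h2
      exact h1 (hb t h2)
    rw [this, measure_empty]
  · unfold arc
    rw [Measure.map_apply hm MeasurableSet.univ, preimage_univ, Measure.restrict_apply_univ,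
      Real.volume_Icc]
    norm_num

theorem hMAI (hPT : StPT) (hCOV : StCOV) (hCAP : StCAP) (hCO2 : StCO2) (hINT : StINT)
    (hRES : StRES) (hFIN : StFIN) : StMAI := by
  intro Ω p s hO hC hB h0 hp hs hsp hs3 hG
  have hne : Ω.Nonempty := ⟨0, h0⟩
  obtain ⟨n, P, u, v, ℓ, φ, τ, hPiece, hcov⟩ := hCOV Ω hO hC hB hne
  -- the exponents
  have hMm : max s 2 < min p 3 := by
    rw [max_lt_iff, lt_min_iff, lt_min_iff]
    exact ⟨⟨hsp, hs3⟩, hp, by norm_num⟩
  obtain ⟨σ, hσ1, hσ2⟩ := exists_between hMm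
  obtain ⟨q, hq1, hq2⟩ := exists_between hσ2
  have hsσ : s < σ := lt_of_le_of_lt (le_max_left _ _) hσ1
  have h2σ : 2 < σ := lt_of_le_of_lt (le_max_right _ _) hσ1
  have hqp : q < p := lt_of_lt_of_le hq2 (min_le_left _ _)
  have hq3 : q < 3 := lt_of_lt_of_le hq2 (min_le_right _ _)
  refine hFIN Ω p n P u v ℓ φ τ hB (by linarith) hPiece hcov ?_
  intro i hi
  have hpi := hPiece i hi
  refine hRES Ω (P i) (u i) (v i) (ℓ i) (φ i) (τ i) p hpi (by linarith) ?_
  intro c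
  obtain ⟨A, hA, hgap⟩ := hCAP Ω s hO hC hB hne hs hG (P i) (u i) (v i) (ℓ i) (φ i) (τ i) hpi
  have hgr : Graph (fun t => φ i (ℓ i * t) / ℓ i) (fun t => τ i (ℓ i * t)) :=
    graph_scale_MAI hpi.graph hpi.pos
  have hgap' : Gap A σ (fun t => τ i (ℓ i * t)) := gap_mono_MAI hA hs hsσ.le hgap
  have hmax : MaxB (arc c (fun t => φ i (ℓ i * t) / ℓ i)) q :=
    hCO2 _ _ A σ q c hgr hgap' hA h2σ hq1 hq3
  exact hINT _ _ 1 p q (arc_Bd_MAI hPT hgr c) one_pos (by linarith) hqp.le hmax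

end Pool.Agent.Helper71.RG
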